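import Mathlib

set_option autoImplicit false

namespace Pool.Agent.R272.LogEll

/-- Real `3 × 3` matrices. -/
abbrev Mat := Matrix (Fin 3) (Fin 3) ℝ

/-- `log U` for `U = √(Fᵀ F)`: the spectral functional calculus of the symmetric matrix `Fᵀ F`
(for real matrices `Fᴴ = Fᵀ`) applied to `x ↦ log √x`. -/
noncomputable def logU (F : Mat) : Mat :=
  (Matrix.isHermitian_conjTranspose_mul_self F).cfc fun x => Real.log (Real.sqrt x)

/-- The deviatoric part `dev X = X - (tr X / 3) 1`. -/
noncomputable def dev (X : Mat) : Mat := X - (X.trace / 3) • (1 : Mat)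

/-- `K(F) = ‖dev log U‖²` (Frobenius norm). -/
noncomputable def K (F : Mat) : ℝ := (dev (logU F) * (dev (logU F)).transpose).trace

/-- Legendre–Hadamard ellipticity on `GL⁺(3)`: all second derivatives in rank-one directions are
positive. -/
def LHElliptic (Phi : Mat → ℝ) : Prop :=
  ∀ F : Mat, 0 < F.det → ∀ ξ η : Fin 3 → ℝ, ξ ≠ 0 → η ≠ 0 →
    0 < deriv (deriv fun t : ℝ => Phi (F + t • Matrix.vecMulVec ξ η)) 0

end Pool.Agent.R272.LogEll
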