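import Pool.Agent.R272.LogEll.Defs

set_option autoImplicit false

namespace Pool.Agent.R272.LogEll

open Matrix Polynomial

theorem K_eq (F : Mat) (g : ℝ → ℝ) (hg : g = fun x => Real.log (Real.sqrt x)) :
    K F = ∑ i, g ((isHermitian_conjTranspose_mul_self F).eigenvalues i) ^ 2 -
      (∑ i, g ((isHermitian_conjTranspose_mul_self F).eigenvalues i)) ^ 2 / 3 := by
  set hA := isHermitian_conjTranspose_mul_self F with hhA
  set e := hA.eigenvalues with he
  set D : Mat := diagonal (g ∘ e) with hD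
  set V := hA.eigenvectorUnitary with hV
  have hL : logU F = (V : Mat) * D * (star (V : Mat)) := by
    unfold logU
    rw [Matrix.IsHermitian.cfc, Unitary.conjStarAlgAut_apply]
    subst hg
    rfl
  have hVV : star (V : Mat) * (V : Mat) = 1 := Unitary.coe_star_mul_self V
  have htr : ∀ X : Mat, trace ((V : Mat) * X * star (V : Mat)) = trace X := by
    intro X
    rw [Matrix.trace_mul_comm, ← mul_assoc, hVV, one_mul]
  have hstar : star (V : Mat) = (V : Mat).transpose := by
    rw [star_eq_conjTranspose, conjTranspose_eq_transpose_of_trivial]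
  have hsymm : (logU F).transpose = logU F := by
    rw [hL, hstar, transpose_mul, transpose_mul, transpose_transpose, hD, diagonal_transpose,
      mul_assoc]
  have h1 : trace (logU F) = ∑ i, g (e i) := by
    rw [hL, htr, hD, trace_diagonal]
    rfl
  have h2 : trace (logU F * logU F) = ∑ i, g (e i) ^ 2 := by
    have : logU F * logU F = (V : Mat) * (D * D) * star (V : Mat) := by
      rw [hL]
      calc (V : Mat) * D * star (V : Mat) * ((V : Mat) * D * star (V : Mat))
          = (V : Mat) * D * (star (V : Mat) * (V : Mat)) * D * star (V : Mat) := by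
            simp only [mul_assoc]
        _ = (V : Mat) * (D * D) * star (V : Mat) := by
            rw [hVV, mul_one]; simp only [mul_assoc]
    rw [this, htr, hD, diagonal_mul_diagonal, trace_diagonal]
    apply Finset.sum_congr rfl
    intro i _
    simp [sq]
  unfold K dev
  rw [transpose_sub, hsymm, transpose_smul, transpose_one]
  have h3 : (logU F - (trace (logU F) / 3) • (1 : Mat)) * (logU F - (trace (logU F) / 3) • (1 : Mat))
      = logU F * logU F - (2 * (trace (logU F) / 3)) • logU F +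
        (trace (logU F) / 3) ^ 2 • (1 : Mat) := by
    simp only [sub_mul, mul_sub, smul_mul_assoc, mul_smul_comm, one_mul, mul_one]
    module
  rw [h3, trace_add, trace_sub, trace_smul, trace_smul, trace_one, h1, h2]
  simp only [smul_eq_mul, Fintype.card_fin]
  push_cast
  ring

/-- The block matrices. -/
noncomputable def Bl (a b c d l : ℝ) : Mat := !![a, b, 0; c, d, 0; 0, 0, l]

theorem charpoly_block (a b c d l x1 x2 : ℝ) (h1 : x1 + x2 = a ^ 2 + b ^ 2 + c ^ 2 + d ^ 2)
    (h2 : x1 * x2 = (a * d - b * c) ^ 2) :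
    ((Bl a b c d l)ᴴ * Bl a b c d l).charpoly = (X - C x1) * (X - C x2) * (X - C (l ^ 2)) := by
  have hA : (Bl a b c d l)ᴴ * Bl a b c d l =
      !![a ^ 2 + c ^ 2, a * b + c * d, 0; a * b + c * d, b ^ 2 + d ^ 2, 0; 0, 0, l ^ 2] := by
    ext i j
    fin_cases i <;> fin_cases j <;>
      simp [Bl, Matrix.mul_apply, Fin.sum_univ_three] <;> ring
  rw [hA, Matrix.charpoly, Matrix.det_fin_three]
  have hC1 : C x1 + C x2 = C a ^ 2 + C b ^ 2 + C c ^ 2 + C d ^ 2 := by
    rw [← C_add, h1]; simp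
  have hC2 : C x1 * C x2 = (C a * C d - C b * C c) ^ 2 := by
    rw [← C_mul, h2]; simp
  simp
  linear_combination (X - C l ^ 2) * (X * hC1) - (X - C l ^ 2) * hC2

theorem sum_eig (g : ℝ → ℝ) (a b c d l x1 x2 : ℝ) (h1 : x1 + x2 = a ^ 2 + b ^ 2 + c ^ 2 + d ^ 2)
    (h2 : x1 * x2 = (a * d - b * c) ^ 2) :
    ∑ i, g ((isHermitian_conjTranspose_mul_self (Bl a b c d l)).eigenvalues i) =
      g x1 + g x2 + g (l ^ 2) := by
  have hr := (isHermitian_conjTranspose_mul_self (Bl a b c d l)).roots_charpoly_eq_eigenvalues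
  rw [charpoly_block a b c d l x1 x2 h1 h2] at hr
  have hne1 : (X - C x1 : ℝ[X]) ≠ 0 := X_sub_C_ne_zero x1
  have hne2 : (X - C x2 : ℝ[X]) ≠ 0 := X_sub_C_ne_zero x2
  have hne3 : (X - C (l ^ 2) : ℝ[X]) ≠ 0 := X_sub_C_ne_zero (l ^ 2)
  rw [Polynomial.roots_mul (mul_ne_zero (mul_ne_zero hne1 hne2) hne3),
    Polynomial.roots_mul (mul_ne_zero hne1 hne2), roots_X_sub_C, roots_X_sub_C, roots_X_sub_C] at hr
  have h3 : ∑ i, g ((isHermitian_conjTranspose_mul_self (Bl a b c d l)).eigenvalues i) =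
      (Multiset.map g (Multiset.map (RCLike.ofReal ∘
        (isHermitian_conjTranspose_mul_self (Bl a b c d l)).eigenvalues)
          Finset.univ.val)).sum := by
    rw [Multiset.map_map]
    rfl
  rw [h3, ← hr]
  simp
  ring

theorem K_block {a b c d l m : ℝ} (hl : 0 < l) (hD : 0 < a * d - b * c)
    (hm : a ^ 2 + b ^ 2 + c ^ 2 + d ^ 2 = 2 * (a * d - b * c) * Real.cosh m) :
    K (Bl a b c d l) = m ^ 2 / 2 + (Real.log (a * d - b * c) - 2 * Real.log l) ^ 2 / 6 := by
  set D := a * d - b * c with hDdef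
  have h1 : D * Real.exp m + D * Real.exp (-m) = a ^ 2 + b ^ 2 + c ^ 2 + d ^ 2 := by
    rw [hm, Real.cosh_eq]; ring
  have h2 : D * Real.exp m * (D * Real.exp (-m)) = (a * d - b * c) ^ 2 := by
    rw [← hDdef]
    calc D * Real.exp m * (D * Real.exp (-m)) = D ^ 2 * (Real.exp m * Real.exp (-m)) := by ring
      _ = D ^ 2 := by rw [← Real.exp_add]; simp
  rw [K_eq _ (fun x => Real.log (Real.sqrt x)) rfl,
    sum_eig (fun x => Real.log (Real.sqrt x) ^ 2) a b c d l _ _ h1 h2,
    sum_eig (fun x => Real.log (Real.sqrt x)) a b c d l _ _ h1 h2]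
  have g1 : Real.log (Real.sqrt (D * Real.exp m)) = (Real.log D + m) / 2 := by
    rw [Real.log_sqrt (by positivity), Real.log_mul hD.ne' (Real.exp_pos _).ne', Real.log_exp]
  have g2 : Real.log (Real.sqrt (D * Real.exp (-m))) = (Real.log D - m) / 2 := by
    rw [Real.log_sqrt (by positivity), Real.log_mul hD.ne' (Real.exp_pos _).ne', Real.log_exp]
    ring
  have g3 : Real.log (Real.sqrt (l ^ 2)) = Real.log l := by
    rw [Real.sqrt_sq hl.le]
  rw [g1, g2, g3]
  ring

theorem vec_block (r1 r2 l t ξ2 η1 η2 : ℝ) :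
    Bl r1 0 0 r2 l + t • vecMulVec ![1, ξ2, 0] ![η1, η2, 0] =
      Bl (r1 + t * η1) (t * η2) (t * (ξ2 * η1)) (r2 + t * (ξ2 * η2)) l := by
  ext i j
  fin_cases i <;> fin_cases j <;> simp [Bl, vecMulVec]

theorem det_Bl (a b c d l : ℝ) : (Bl a b c d l).det = (a * d - b * c) * l := by
  unfold Bl
  rw [Matrix.det_fin_three]
  simp
  ring

/-- Strict convexity along lines. -/
theorem strict_line {Phi : Mat → ℝ} (hP : LHElliptic Phi) (F : Mat) {ξ η : Fin 3 → ℝ} (hξ : ξ ≠ 0)
    (hη : η ≠ 0) {α β : ℝ} (hdet : ∀ t ∈ Set.Icc α β, 0 < (F + t • vecMulVec ξ η).det)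
    (hc : ContinuousOn (fun t : ℝ => Phi (F + t • vecMulVec ξ η)) (Set.Icc α β)) :
    StrictConvexOn ℝ (Set.Icc α β) fun t : ℝ => Phi (F + t • vecMulVec ξ η) := by
  apply strictConvexOn_of_deriv2_pos (convex_Icc α β) hc
  intro x hx
  rw [interior_Icc] at hx
  have h1 := hP (F + x • vecMulVec ξ η) (hdet x ⟨hx.1.le, hx.2.le⟩) ξ η hξ hη
  have h2 : (fun t : ℝ => Phi (F + x • vecMulVec ξ η + t • vecMulVec ξ η)) =
      fun t : ℝ => (fun t : ℝ => Phi (F + t • vecMulVec ξ η)) (t + x) := by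
    funext t
    simp only
    congr 1
    rw [add_smul]
    abel
  rw [h2] at h1
  have h3 : (deriv fun t : ℝ => (fun t : ℝ => Phi (F + t • vecMulVec ξ η)) (t + x)) =
      fun t : ℝ => (deriv fun t : ℝ => Phi (F + t • vecMulVec ξ η)) (t + x) := by
    funext t
    exact deriv_comp_add_const (fun t : ℝ => Phi (F + t • vecMulVec ξ η)) x t
  rw [h3, deriv_comp_add_const, zero_add] at h1
  simpa using h1

theorem xi_ne (a b : ℝ) : (![1, a, b] : Fin 3 → ℝ) ≠ 0 := by
  intro h
  have := congrFun h 0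
  simp at this

/-- `W` is increasing. -/
theorem W_mono {W : ℝ → ℝ} (hW : ContinuousOn W (Set.Ici 0))
    (hP : LHElliptic fun F => W (K F)) {k1 k2 : ℝ} (h0 : 0 ≤ k1) (h12 : k1 ≤ k2) : W k1 ≤ W k2 := by
  rcases h12.eq_or_lt with h | hlt
  · rw [h]
  set m1 := √(2 * k1) with hm1
  set m2 := √(2 * k2) with hm2
  have hm10 : 0 ≤ m1 := Real.sqrt_nonneg _
  have hm12 : m1 < m2 := Real.sqrt_lt_sqrt (by linarith) (by linarith)
  have hcosh : Real.cosh m1 < Real.cosh m2 := by
    rw [Real.cosh_lt_cosh, abs_of_nonneg hm10, abs_of_nonneg (by linarith)]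
    exact hm12
  set T := √(2 * Real.cosh m2 - 2 * Real.cosh m1) with hT
  have hTpos : 0 < T := Real.sqrt_pos.mpr (by linarith)
  have hTsq : T ^ 2 = 2 * Real.cosh m2 - 2 * Real.cosh m1 := Real.sq_sqrt (by linarith)
  set e1 := Real.exp (m1 / 2) with he1
  set e2 := Real.exp (-(m1 / 2)) with he2
  have he12 : e1 * e2 = 1 := by rw [he1, he2, ← Real.exp_add]; simp
  have hesq : e1 ^ 2 + e2 ^ 2 = 2 * Real.cosh m1 := by
    rw [Real.cosh_eq, he1, he2, ← Real.exp_nat_mul, ← Real.exp_nat_mul]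
    push_cast
    rw [show 2 * (m1 / 2) = m1 by ring, show 2 * -(m1 / 2) = -m1 by ring]
    ring
  have hline : ∀ t : ℝ, Bl e1 0 0 e2 1 + t • vecMulVec ![1, 0, 0] ![0, 1, 0] =
      Bl e1 t 0 e2 1 := by
    intro t
    ext i j
    fin_cases i <;> fin_cases j <;> simp [Bl, vecMulVec]
  have hη : (![0, 1, 0] : Fin 3 → ℝ) ≠ 0 := by
    intro h
    have := congrFun h 1
    simp at this
  have hK : ∀ t m : ℝ, 2 * Real.cosh m = 2 * Real.cosh m1 + t ^ 2 →
      K (Bl e1 t 0 e2 1) = m ^ 2 / 2 := by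
    intro t m hm
    have hD : e1 * e2 - t * 0 = 1 := by rw [he12]; ring
    rw [K_block (m := m) one_pos (by rw [hD]; exact one_pos) (by rw [hD]; linarith), hD]
    simp
  -- continuity
  have hcont : ContinuousOn (fun t : ℝ => W (K (Bl e1 0 0 e2 1 + t • vecMulVec ![1, 0, 0] ![0, 1, 0])))
      (Set.Icc (-T) T) := by
    have h1 : (fun t : ℝ => W (K (Bl e1 0 0 e2 1 + t • vecMulVec ![1, 0, 0] ![0, 1, 0]))) =
        fun t : ℝ => W ((Real.arcosh (Real.cosh m1 + t ^ 2 / 2)) ^ 2 / 2) := by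
      funext t
      rw [hline, hK t (Real.arcosh (Real.cosh m1 + t ^ 2 / 2))]
      rw [Real.cosh_arcosh (by have := Real.one_le_cosh m1; nlinarith [sq_nonneg t])]
      ring
    rw [h1]
    apply Continuous.continuousOn
    rw [← continuousOn_univ]
    apply hW.comp
    · apply ContinuousOn.div_const
      apply ContinuousOn.pow
      apply Real.continuousOn_arcosh.comp (by fun_prop)
      intro t _
      have := Real.one_le_cosh m1
      show 1 ≤ Real.cosh m1 + t ^ 2 / 2
      nlinarith [sq_nonneg t]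
    · intro t _
      show 0 ≤ (Real.arcosh (Real.cosh m1 + t ^ 2 / 2)) ^ 2 / 2
      positivity
  have hs := strict_line hP (Bl e1 0 0 e2 1) (xi_ne 0 0) hη (α := -T) (β := T) (by
    intro t _
    rw [hline, det_Bl, he12]
    norm_num) hcont
  have h2 := hs.2 (x := -T) ⟨le_rfl, by linarith⟩ (y := T) ⟨by linarith, le_rfl⟩ (by linarith)
    (by norm_num : (0 : ℝ) < 1 / 2) (by norm_num : (0 : ℝ) < 1 / 2) (by norm_num)
  simp only [hline, smul_eq_mul] at h2
  rw [show (1 : ℝ) / 2 * -T + 1 / 2 * T = 0 by ring, hK 0 m1 (by ring),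
    hK (-T) m2 (by rw [neg_sq, hTsq]; ring), hK T m2 (by rw [hTsq]; ring)] at h2
  have hk1 : m1 ^ 2 / 2 = k1 := by rw [hm1, Real.sq_sqrt (by linarith)]; ring
  have hk2 : m2 ^ 2 / 2 = k2 := by rw [hm2, Real.sq_sqrt (by linarith)]; ring
  rw [hk1, hk2] at h2
  linarith

/-- The line. -/
noncomputable def Ft (t : ℝ) : Mat :=
  Bl (128 + t * 1) (t * -(1 / 16)) (t * (1 / 16 * 1)) (1 + t * (1 / 16 * -(1 / 16))) (2 ^ 36)

theorem Ft_eq (t : ℝ) : Bl 128 0 0 1 (2 ^ 36) + t • vecMulVec ![1, 1 / 16, 0] ![1, -(1 / 16), 0] =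
    Ft t := vec_block _ _ _ _ _ _ _

theorem Ft_D (t : ℝ) : (128 + t * 1) * (1 + t * (1 / 16 * -(1 / 16))) -
    (t * -(1 / 16)) * (t * (1 / 16 * 1)) = 128 + t / 2 := by ring

theorem Ft_S (t : ℝ) : (128 + t * 1) ^ 2 + (t * -(1 / 16)) ^ 2 + (t * (1 / 16 * 1)) ^ 2 +
    (1 + t * (1 / 16 * -(1 / 16))) ^ 2 =
      16385 + t * (32767 / 128) + t ^ 2 * (257 / 256) ^ 2 := by ring

theorem K_Ft {t m : ℝ} (ht : -256 < t)
    (hm : 16385 + t * (32767 / 128) + t ^ 2 * (257 / 256) ^ 2 =
      2 * (128 + t / 2) * Real.cosh m) :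
    K (Ft t) = m ^ 2 / 2 + (Real.log (128 + t / 2) - 72 * Real.log 2) ^ 2 / 6 := by
  unfold Ft
  rw [K_block (m := m) (by positivity) (by rw [Ft_D]; linarith) (by rw [Ft_D, Ft_S]; exact hm),
    Ft_D, Real.log_pow]
  congr 2
  push_cast
  ring

theorem no_W : ¬ ∃ W : ℝ → ℝ, ContDiffOn ℝ 2 W (Set.Ici 0) ∧ LHElliptic fun F => W (K F) := by
  rintro ⟨W, hW2, hP⟩
  have hW : ContinuousOn W (Set.Ici 0) := hW2.continuousOn
  set q := Real.log 2 with hq
  have hq0 : 0 < q := Real.log_pos (by norm_num)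
  -- the ratio
  set Cf : ℝ → ℝ := fun t => (16385 + t * (32767 / 128) + t ^ 2 * (257 / 256) ^ 2) /
    (2 * (128 + t / 2)) with hCf
  have hC1 : ∀ t, -256 < t → 1 ≤ Cf t := by
    intro t ht
    rw [hCf]
    simp only
    rw [le_div_iff₀ (by linarith), one_mul]
    have : 16385 + t * (32767 / 128) + t ^ 2 * (257 / 256) ^ 2 - 2 * (128 + t / 2) =
        (127 + t * (257 / 256)) ^ 2 := by ring
    nlinarith [sq_nonneg (127 + t * (257 / 256))]
  have hCeq : ∀ t, -256 < t → 16385 + t * (32767 / 128) + t ^ 2 * (257 / 256) ^ 2 =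
      2 * (128 + t / 2) * Real.cosh (Real.arcosh (Cf t)) := by
    intro t ht
    rw [Real.cosh_arcosh (hC1 t ht), hCf]
    have h0 : 2 * (128 + t / 2) ≠ 0 := by
      have : 0 < 2 * (128 + t / 2) := by linarith
      exact this.ne'
    have key : ∀ N B : ℝ, B ≠ 0 → N = B * (N / B) := fun N B h => by field_simp
    exact key _ _ h0
  have hKt : ∀ t, -256 < t → K (Ft t) =
      Real.arcosh (Cf t) ^ 2 / 2 + (Real.log (128 + t / 2) - 72 * q) ^ 2 / 6 :=
    fun t ht => K_Ft ht (hCeq t ht)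
  have hξ : (![1, 1 / 16, 0] : Fin 3 → ℝ) ≠ 0 := xi_ne _ _
  have hη : (![1, -(1 / 16), 0] : Fin 3 → ℝ) ≠ 0 := xi_ne _ _
  have hcont : ContinuousOn (fun t : ℝ => W (K (Bl 128 0 0 1 (2 ^ 36) +
      t • vecMulVec ![1, 1 / 16, 0] ![1, -(1 / 16), 0]))) (Set.Icc (-128) 256) := by
    have h1 : ContinuousOn (fun t : ℝ => W (Real.arcosh (Cf t) ^ 2 / 2 +
        (Real.log (128 + t / 2) - 72 * q) ^ 2 / 6)) (Set.Icc (-128) 256) := by
      apply hW.comp
      · apply ContinuousOn.add
        · apply ContinuousOn.div_const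
          apply ContinuousOn.pow
          apply Real.continuousOn_arcosh.comp
          · rw [hCf]
            apply ContinuousOn.div (by fun_prop) (by fun_prop)
            intro t ht
            have := ht.1
            linarith
          · intro t ht
            exact hC1 t (by linarith [ht.1])
        · apply ContinuousOn.div_const
          apply ContinuousOn.pow
          apply ContinuousOn.sub _ continuousOn_const
          apply ContinuousOn.log (by fun_prop)
          intro t ht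
          have := ht.1
          linarith
      · intro t _
        show 0 ≤ Real.arcosh (Cf t) ^ 2 / 2 + (Real.log (128 + t / 2) - 72 * q) ^ 2 / 6
        positivity
    apply h1.congr
    intro t ht
    simp only
    rw [Ft_eq, hKt t (by linarith [ht.1])]
  have hs := strict_line hP (Bl 128 0 0 1 (2 ^ 36)) hξ hη (α := -128) (β := 256) (by
    intro t ht
    rw [Ft_eq]
    unfold Ft
    rw [det_Bl, Ft_D]
    have := ht.1
    have h2 : 0 < 128 + t / 2 := by linarith
    positivity) hcont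
  have h2 := hs.2 (x := -128) ⟨le_rfl, by norm_num⟩ (y := 256) ⟨by norm_num, le_rfl⟩ (by norm_num)
    (by norm_num : (0 : ℝ) < 2 / 3) (by norm_num : (0 : ℝ) < 1 / 3) (by norm_num)
  simp only [Ft_eq, smul_eq_mul] at h2
  rw [show (2 : ℝ) / 3 * -128 + 1 / 3 * 256 = 0 by norm_num] at h2
  -- the value at zero
  have hexp : ∀ n : ℕ, Real.exp (n * q) = 2 ^ n := by
    intro n
    rw [Real.exp_nat_mul, Real.exp_log (by norm_num)]
  have hK0 : K (Ft 0) = (7 * q) ^ 2 / 2 + (65 * q) ^ 2 / 6 := by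
    have hc : Real.cosh (7 * q) = 16385 / 256 := by
      rw [Real.cosh_eq, Real.exp_neg]
      have := hexp 7
      push_cast at this
      rw [this]
      norm_num
    rw [K_Ft (m := 7 * q) (by norm_num) (by rw [hc]; norm_num)]
    have : Real.log (128 + 0 / 2) = 7 * q := by
      rw [show (128 : ℝ) + 0 / 2 = 2 ^ 7 by norm_num, Real.log_pow]
      push_cast
      ring
    rw [this]
    ring
  -- value at 256
  have hK2 : K (Ft 256) ≤ K (Ft 0) := by
    rw [hKt 256 (by norm_num), hK0]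
    have hl : Real.log (128 + 256 / 2) = 8 * q := by
      rw [show (128 : ℝ) + 256 / 2 = 2 ^ 8 by norm_num, Real.log_pow]
      push_cast
      ring
    have hC : Cf 256 = 289 := by rw [hCf]; norm_num
    rw [hl, hC]
    have hm0 : 0 ≤ Real.arcosh 289 := Real.arcosh_nonneg (by norm_num)
    have hm : Real.arcosh 289 ≤ 19 / 2 * q := by
      have h3 : Real.cosh (Real.arcosh 289) ≤ Real.cosh (19 / 2 * q) := by
        rw [Real.cosh_arcosh (by norm_num), Real.cosh_eq]
        have e1 : Real.exp (19 / 2 * q) ^ 2 = 2 ^ 19 := by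
          rw [← hexp 19, ← Real.exp_nat_mul]
          congr 1
          push_cast
          ring
        have e2 : (578 : ℝ) ≤ Real.exp (19 / 2 * q) := by
          apply le_of_sq_le_sq _ (Real.exp_pos _).le
          rw [e1]; norm_num
        have e3 := Real.exp_pos (-(19 / 2 * q))
        linarith
      rw [Real.cosh_le_cosh, abs_of_nonneg hm0, abs_of_nonneg (by positivity)] at h3
      exact h3
    nlinarith [mul_pos hq0 hq0]
  have hK1 : K (Ft (-128)) ≤ K (Ft 0) := by
    rw [hKt (-128) (by norm_num), hK0]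
    have hl : Real.log (128 + -128 / 2) = 6 * q := by
      rw [show (128 : ℝ) + -128 / 2 = 2 ^ 6 by norm_num, Real.log_pow]
      push_cast
      ring
    have hC : Cf (-128) = 521 / 512 := by rw [hCf]; norm_num
    rw [hl, hC]
    have hm0 : 0 ≤ Real.arcosh (521 / 512) := Real.arcosh_nonneg (by norm_num)
    have hm : Real.arcosh (521 / 512) ≤ 2 * q := by
      have h3 : Real.cosh (Real.arcosh (521 / 512)) ≤ Real.cosh (2 * q) := by
        rw [Real.cosh_arcosh (by norm_num), Real.cosh_eq, Real.exp_neg]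
        have := hexp 2
        push_cast at this
        rw [this]
        norm_num
      rw [Real.cosh_le_cosh, abs_of_nonneg hm0, abs_of_nonneg (by positivity)] at h3
      exact h3
    nlinarith [mul_pos hq0 hq0]
  have n1 : 0 ≤ K (Ft (-128)) := by
    rw [hKt (-128) (by norm_num)]; positivity
  have n2 : 0 ≤ K (Ft 256) := by
    rw [hKt 256 (by norm_num)]; positivity
  have w1 := W_mono hW hP n1 hK1
  have w2 := W_mono hW hP n2 hK2
  linarith

end Pool.Agent.R272.LogEll
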